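import Pool.Agent.Q199.BB.Basic

set_option autoImplicit false

/-!
# Functionals from Folner sequences (job BB16 of project BB)
-/

namespace Pool.Agent.Q53.BB

open Filter Topology Pool.Agent.Q199.BB

/-- The normalised sum over `Ψ N`. -/
noncomputable def aN (Φ Ψ : ℕ → Finset G) (f : G → ℝ) (N : ℕ) : ℝ :=
  (∑ x ∈ Ψ N, f x) / (Φ N).card

/-- The limit along the ultrafilter. -/
noncomputable def mU (u : Ultrafilter ℕ) (Φ Ψ : ℕ → Finset G) (f : G → ℝ) : ℝ :=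
  limUnder (u : Filter ℕ) (aN Φ Ψ f)

section

variable (u : Ultrafilter ℕ) (Φ Ψ : ℕ → Finset G) (hΦ : ∀ N, (Φ N).Nonempty)
  (hΨ : ∀ N, Ψ N ⊆ Φ N)

include hΦ in
lemma card_pos' (N : ℕ) : (0 : ℝ) < (Φ N).card := by
  have := (hΦ N).card_pos
  exact_mod_cast this

include hΦ hΨ in
lemma ratio_le (N : ℕ) : ((Ψ N).card : ℝ) / (Φ N).card ≤ 1 := by
  rw [div_le_one (card_pos' Φ hΦ N)]
  have := Finset.card_le_card (hΨ N)
  exact_mod_cast this

include hΦ hΨ in
lemma aN_le (f : G → ℝ) (C : ℝ) (hC : ∀ x, |f x| ≤ C) (N : ℕ) : |aN Φ Ψ f N| ≤ C := by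
  have hC0 : 0 ≤ C := (abs_nonneg _).trans (hC 0)
  unfold aN
  rw [abs_div, Nat.abs_cast]
  have h1 : |∑ x ∈ Ψ N, f x| ≤ (Ψ N).card * C := by
    refine (Finset.abs_sum_le_sum_abs _ _).trans ?_
    refine (Finset.sum_le_sum fun x _ => hC x).trans ?_
    rw [Finset.sum_const, nsmul_eq_mul]
  rw [div_le_iff₀ (card_pos' Φ hΦ N)]
  have h2 : ((Ψ N).card : ℝ) ≤ (Φ N).card := by
    have := Finset.card_le_card (hΨ N)
    exact_mod_cast this
  nlinarith

include hΦ hΨ in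
lemma conv (f : G → ℝ) [hf : Bdd f] : Tendsto (aN Φ Ψ f) u (𝓝 (mU u Φ Ψ f)) := by
  obtain ⟨C, hC⟩ := hf.out
  have h0 : Tendsto (aN Φ Ψ f) u (𝓟 (Set.Icc (-C) C)) :=
    tendsto_principal.2 (Eventually.of_forall fun N => abs_le.1 (aN_le Φ Ψ hΦ hΨ f C hC N))
  have h1 : (u.map (aN Φ Ψ f) : Filter ℝ) ≤ 𝓟 (Set.Icc (-C) C) := h0
  obtain ⟨L, _, hL⟩ := (isCompact_Icc : IsCompact (Set.Icc (-C) C)).ultrafilter_le_nhds _ h1
  have h2 : Tendsto (aN Φ Ψ f) u (𝓝 L) := hL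
  unfold mU
  rw [h2.limUnder_eq]
  exact h2

include hΦ hΨ in
lemma isPos (hu : (u : Filter ℕ) ≤ atTop)
    (hinv : ∀ g : G, Tendsto (fun N => ((Ψ N \ (Ψ N).map (addRightEmbedding g)).card : ℝ) /
      (Φ N).card) atTop (𝓝 0)) : IsPos (mU u Φ Ψ) := by
  refine ⟨?_, ?_, ?_, ?_⟩
  · intro f g hf hg
    have h1 := (conv u Φ Ψ hΦ hΨ f).add (conv u Φ Ψ hΦ hΨ g)
    refine tendsto_nhds_unique (conv u Φ Ψ hΦ hΨ fun x => f x + g x) (h1.congr fun N => ?_)
    unfold aN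
    rw [Finset.sum_add_distrib, add_div]
  · intro c f hf
    have h1 := (conv u Φ Ψ hΦ hΨ f).const_mul c
    refine tendsto_nhds_unique (conv u Φ Ψ hΦ hΨ fun x => c * f x) (h1.congr fun N => ?_)
    unfold aN
    rw [← Finset.mul_sum, mul_div_assoc]
  · intro f hf h0
    refine ge_of_tendsto (conv u Φ Ψ hΦ hΨ f) (Eventually.of_forall fun N => ?_)
    unfold aN
    exact div_nonneg (Finset.sum_nonneg fun x _ => h0 x) (Nat.cast_nonneg _)
  · intro h f hf
    obtain ⟨C, hC⟩ := hf.out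
    have hC0 : 0 ≤ C := (abs_nonneg _).trans (hC 0)
    have h1 := (conv u Φ Ψ hΦ hΨ fun x => f (x + h)).sub (conv u Φ Ψ hΦ hΨ f)
    have h2 : Tendsto (fun N => aN Φ Ψ (fun x => f (x + h)) N - aN Φ Ψ f N) u (𝓝 0) := by
      have h3 : Tendsto (fun N => 2 * C * (((Ψ N \ (Ψ N).map (addRightEmbedding h)).card : ℝ) /
          (Φ N).card)) u (𝓝 (2 * C * 0)) := ((hinv h).mono_left hu).const_mul _
      rw [mul_zero] at h3
      refine squeeze_zero_norm (fun N => ?_) h3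
      have hp := card_pos' Φ hΦ N
      unfold aN
      rw [← sub_div, norm_div, Real.norm_natCast, ← mul_div_assoc]
      refine div_le_div_of_nonneg_right ?_ hp.le
      have h4 : ∑ x ∈ Ψ N, f (x + h) = ∑ y ∈ (Ψ N).map (addRightEmbedding h), f y := by
        rw [Finset.sum_map]
        rfl
      rw [h4, ← Finset.sum_sdiff_sub_sum_sdiff]
      have h5 : ∀ s : Finset G, |∑ x ∈ s, f x| ≤ s.card * C := by
        intro s
        refine (Finset.abs_sum_le_sum_abs _ _).trans ?_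
        refine (Finset.sum_le_sum fun x _ => hC x).trans ?_
        rw [Finset.sum_const, nsmul_eq_mul]
      have h6 : ((Ψ N).map (addRightEmbedding h) \ Ψ N).card =
          (Ψ N \ (Ψ N).map (addRightEmbedding h)).card :=
        Finset.card_sdiff_comm (Finset.card_map _)
      have h7 := h5 ((Ψ N).map (addRightEmbedding h) \ Ψ N)
      have h8 := h5 (Ψ N \ (Ψ N).map (addRightEmbedding h))
      rw [h6] at h7
      have h9 := abs_sub (∑ x ∈ (Ψ N).map (addRightEmbedding h) \ Ψ N, f x)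
        (∑ x ∈ Ψ N \ (Ψ N).map (addRightEmbedding h), f x)
      rw [Real.norm_eq_abs]
      linarith
    have h3 := tendsto_nhds_unique h1 h2
    linarith

end

/-- **BB16.** -/
theorem tFun : SFun := by
  intro A hA Φ Ψ hΦ hΨ hinv ε hε
  by_contra hcon
  rw [not_eventually] at hcon
  have hne := frequently_iff_neBot.1 hcon
  set S : Set ℕ := {N | ¬ (∑ x ∈ Ψ N, (chi A x + chi A (2 • x) + chi A (4 • x)) ≤
    (Ψ N).card + ε * (Φ N).card)} with hS
  set u : Ultrafilter ℕ := Ultrafilter.of (atTop ⊓ 𝓟 S) with hu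
  have hle : (u : Filter ℕ) ≤ atTop ⊓ 𝓟 S := Ultrafilter.of_le _
  have hle1 : (u : Filter ℕ) ≤ atTop := hle.trans inf_le_left
  have hle2 : S ∈ (u : Filter ℕ) := le_principal_iff.1 (hle.trans inf_le_right)
  have hpos := isPos u Φ Ψ hΦ hΨ hle1 hinv
  set m0 := mU u Φ Ψ with hm0
  set F : G → ℝ := fun x => chi A x + chi A (2 • x) + chi A (4 • x) with hF
  have hFB : Bdd F := by
    rw [hF]
    infer_instance
  -- the limit of the sums
  have hlow : m0 (fun _ => 1) + ε ≤ m0 F := by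
    have h1 := (conv u Φ Ψ hΦ hΨ fun _ => 1).add_const ε
    refine le_of_tendsto_of_tendsto h1 (conv u Φ Ψ hΦ hΨ F) ?_
    filter_upwards [hle2] with N hN
    have hp := card_pos' Φ hΦ N
    have hN' : ((Ψ N).card : ℝ) + ε * (Φ N).card < ∑ x ∈ Ψ N, F x := lt_of_not_ge hN
    show aN Φ Ψ (fun _ => 1) N + ε ≤ aN Φ Ψ F N
    unfold aN
    rw [Finset.sum_const, nsmul_eq_mul, mul_one, le_div_iff₀ hp, add_mul, div_mul_cancel₀ _ hp.ne']
    exact hN'.le
  have hc0 : 0 ≤ m0 (fun _ => 1) := hpos.nonneg _ inferInstance fun _ => zero_le_one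
  have hFle : m0 F ≤ 3 * m0 (fun _ => 1) := by
    rw [← hpos.smul' 3 (fun _ => 1)]
    refine hpos.mono _ _ fun x => ?_
    have h1 := chi_le_one A x
    have h2 := chi_le_one A (2 • x)
    have h3 := chi_le_one A (4 • x)
    simp only [hF]
    linarith
  have hc : 0 < m0 (fun _ => 1) := by
    rcases hc0.lt_or_eq with h | h
    · exact h
    · rw [← h] at hFle hlow
      linarith
  set c := m0 (fun _ => 1) with hcdef
  have hmean : IsMean (fun f => c⁻¹ * m0 f) := by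
    refine ⟨⟨?_, ?_, ?_, ?_⟩, ?_⟩
    · intro f g hf hg
      show c⁻¹ * m0 (fun x => f x + g x) = c⁻¹ * m0 f + c⁻¹ * m0 g
      rw [hpos.add f g hf hg, mul_add]
    · intro k f hf
      show c⁻¹ * m0 (fun x => k * f x) = k * (c⁻¹ * m0 f)
      rw [hpos.smul k f hf]
      ring
    · intro f hf h0
      exact mul_nonneg (inv_nonneg.2 hc.le) (hpos.nonneg f hf h0)
    · intro h f hf
      show c⁻¹ * m0 (fun x => f (x + h)) = c⁻¹ * m0 f
      rw [hpos.shift h f hf]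
    · exact inv_mul_cancel₀ hc.ne'
  have h1 := hA _ hmean
  have h2 : m0 F = m0 (chi A) + m0 (chi {x | 2 • x ∈ A}) + m0 (chi {x | 4 • x ∈ A}) := by
    rw [hF, hpos.add' (fun x => chi A x + chi A (2 • x)) (fun x => chi A (4 • x)),
      hpos.add' (chi A) (fun x => chi A (2 • x))]
    rfl
  have h3 : c⁻¹ * m0 F ≤ 1 := by
    rw [h2]
    have : c⁻¹ * (m0 (chi A) + m0 (chi {x | 2 • x ∈ A}) + m0 (chi {x | 4 • x ∈ A})) =
      c⁻¹ * m0 (chi A) + c⁻¹ * m0 (chi {x | 2 • x ∈ A}) + c⁻¹ * m0 (chi {x | 4 • x ∈ A}) := by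
      ring
    rw [this]
    exact h1
  rw [inv_mul_le_iff₀ hc, mul_one] at h3
  linarith

end Pool.Agent.Q53.BB
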