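import Pool.Agent.Q199.BB.Basic

set_option autoImplicit false

/-!
# The triple inequality (job BB15 of project BB)
-/

namespace Pool.Agent.Q53.BB

open Filter Topology Pool.Agent.Q199.BB

variable {m : (G → ℝ) → ℝ}

lemma eight (y : G) : 2 • (2 • (2 • y)) = y := by
  rw [smul_smul, smul_smul]
  ext i
  rw [Finsupp.smul_apply, nsmul_eq_mul]
  have : ((2 * 2 * 2 : ℕ) : ZMod 7) = 1 := by decide
  rw [this, one_mul]

lemma idx_chi (hC : SCnd) (hm : IsMean m) (H : AddSubgroup G) (hH : H.FiniteIndex) :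
    (H.index : ℝ) * m (chi (H : Set G)) = 1 := by
  have h1 := hC m hm H hH (fun _ => 1) (fun _ => 1) inferInstance inferInstance (fun _ _ _ => rfl)
  have h2 : cnd m H (fun _ => 1) = fun _ => (H.index : ℝ) * m (chi (H : Set G)) := by
    funext y
    unfold cnd
    congr 1
    simp only [one_mul]
    exact hm.shift_sub y (chi (H : Set G))
  rw [h2] at h1
  simp only [mul_one] at h1
  rw [hm.one, hm.const] at h1
  exact h1.symm

lemma cnd_chi_nonneg (hm : IsMean m) (H : AddSubgroup G) (A : Set G) (y : G) :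
    0 ≤ cnd m H (chi A) y := by
  unfold cnd
  refine mul_nonneg (Nat.cast_nonneg _) ?_
  exact hm.nonneg _ inferInstance fun x => mul_nonneg (chi_nonneg _ _) (chi_nonneg _ _)

lemma cnd_chi_le_one (hC : SCnd) (hm : IsMean m) (H : AddSubgroup G) (hH : H.FiniteIndex)
    (A : Set G) (y : G) : cnd m H (chi A) y ≤ 1 := by
  rw [← idx_chi hC hm H hH]
  unfold cnd
  refine mul_le_mul_of_nonneg_left ?_ (Nat.cast_nonneg _)
  rw [← hm.shift_sub y (chi (H : Set G))]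
  refine hm.mono _ _ fun x => ?_
  have h1 := mul_le_mul_of_nonneg_right (chi_le_one A x) (chi_nonneg (H : Set G) (x - y))
  rwa [one_mul] at h1

lemma mean_cnd (hC : SCnd) (hm : IsMean m) (H : AddSubgroup G) (hH : H.FiniteIndex)
    (f : G → ℝ) [hf : Bdd f] : m (cnd m H f) = m f := by
  have h1 := hC m hm H hH f (fun _ => 1) hf inferInstance (fun _ _ _ => rfl)
  simp only [mul_one] at h1
  exact h1.symm

lemma two_periodic {H : AddSubgroup G} {F : G → ℝ} (hF : ∀ k ∈ H, ∀ y, F (y + k) = F y) :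
    ∀ k ∈ H, ∀ y, (fun y => F (2 • y)) (y + k) = (fun y => F (2 • y)) y := by
  intro k hk y
  show F (2 • (y + k)) = F (2 • y)
  rw [nsmul_add]
  exact hF _ (H.nsmul_mem hk 2) _

lemma bdd01 {f : G → ℝ} (h0 : ∀ x, 0 ≤ f x) (h1 : ∀ x, f x ≤ 1) : Bdd f :=
  ⟨1, fun x => by rw [abs_of_nonneg (h0 x)]; exact h1 x⟩

/-- The mean of the minimum. -/
noncomputable def MM (m : (G → ℝ) → ℝ) (H : AddSubgroup G) (C A : Set G) : ℝ :=
  m (fun y => min (cnd m H (chi C) y) (cnd m H (chi A) (2 • y)))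

lemma tri_num (x y z : ℝ) (hx : x ≤ 1) (hy : y ≤ 1) (hz : z ≤ 1) (hx' : 0 ≤ x) (hy' : 0 ≤ y)
    (hz' : 0 ≤ z) :
    x + y + z ≤ 1 + (min x y + min y z + min z x) := by
  rcases le_total x y with h1 | h1 <;> rcases le_total y z with h2 | h2 <;>
    rcases le_total z x with h3 | h3 <;> simp only [min_eq_left, min_eq_right, h1, h2, h3] <;>
    linarith

lemma tri_mean (hC : SCnd) (hD : SDbl) (hm : IsMean m) (H : AddSubgroup G) (hH : H.FiniteIndex)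
    (A₀ A₁ A₂ : Set G) : m (chi A₀) + m (chi A₁) + m (chi A₂) ≤
      1 + (MM m H A₀ A₂ + MM m H A₂ A₁ + MM m H A₁ A₀) := by
  have b : ∀ A : Set G, Bdd (cnd m H (chi A)) := fun A => bdd_cnd hm H (chi A)
  have hper : ∀ A : Set G, ∀ k ∈ H, ∀ y, cnd m H (chi A) (y + k) = cnd m H (chi A) y :=
    fun A k hk y => cnd_periodic H (chi A) hk y
  set u₀ := cnd m H (chi A₀) with hu₀
  set u₁ := cnd m H (chi A₁) with hu₁
  set u₂ := cnd m H (chi A₂) with hu₂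
  have b0 : Bdd u₀ := b A₀
  have b1 : Bdd u₁ := b A₁
  have b2 : Bdd u₂ := b A₂
  have p0 : ∀ k ∈ H, ∀ y, u₀ (y + k) = u₀ y := hper A₀
  have p1 : ∀ k ∈ H, ∀ y, u₁ (y + k) = u₁ y := hper A₁
  have p2 : ∀ k ∈ H, ∀ y, u₂ (y + k) = u₂ y := hper A₂
  have n0 : ∀ y, 0 ≤ u₀ y := cnd_chi_nonneg hm H A₀
  have n1 : ∀ y, 0 ≤ u₁ y := cnd_chi_nonneg hm H A₁
  have n2 : ∀ y, 0 ≤ u₂ y := cnd_chi_nonneg hm H A₂
  have o0 : ∀ y, u₀ y ≤ 1 := cnd_chi_le_one hC hm H hH A₀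
  have o1 : ∀ y, u₁ y ≤ 1 := cnd_chi_le_one hC hm H hH A₁
  have o2 : ∀ y, u₂ y ≤ 1 := cnd_chi_le_one hC hm H hH A₂
  have bb : ∀ f g : G → ℝ, (∀ x, 0 ≤ f x) → (∀ x, f x ≤ 1) → (∀ x, 0 ≤ g x) →
      Bdd (fun x => min (f x) (g x)) := fun f g h1 h2 h3 =>
    bdd01 (fun x => le_min (h1 x) (h3 x)) (fun x => (min_le_left _ _).trans (h2 x))
  -- the four means
  have e2 : m (fun y => u₂ (2 • y)) = m (chi A₂) := by
    rw [hD m hm H hH u₂ b2 p2, hu₂, mean_cnd hC hm H hH]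
  have e1 : m (fun y => u₁ (2 • (2 • y))) = m (chi A₁) := by
    rw [hD m hm H hH (fun y => u₁ (2 • y)) inferInstance (two_periodic p1),
      hD m hm H hH u₁ b1 p1, hu₁, mean_cnd hC hm H hH]
  have e0 : m u₀ = m (chi A₀) := mean_cnd hC hm H hH _
  have d1 : Bdd (fun y => u₁ (2 • (2 • y))) := bdd_nsmul (fun y => u₁ (2 • y)) 2
  have c0 : Bdd (fun y => min (u₀ y) (u₂ (2 • y))) := bb _ _ n0 o0 fun x => n2 _
  have c2 : Bdd (fun y => min (u₂ y) (u₁ (2 • y))) := bb _ _ n2 o2 fun x => n1 _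
  have c1 : Bdd (fun y => min (u₁ y) (u₀ (2 • y))) := bb _ _ n1 o1 fun x => n0 _
  have c2' : Bdd (fun y => min (u₂ (2 • y)) (u₁ (2 • (2 • y)))) :=
    bb (fun y => u₂ (2 • y)) _ (fun x => n2 _) (fun x => o2 _) fun x => n1 _
  have c1' : Bdd (fun y => min (u₁ (2 • (2 • y))) (u₀ y)) :=
    bb (fun y => u₁ (2 • (2 • y))) _ (fun x => n1 _) (fun x => o1 _) fun x => n0 _
  have f2 : m (fun y => min (u₂ (2 • y)) (u₁ (2 • (2 • y)))) = MM m H A₂ A₁ := by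
    have hp : ∀ k ∈ H, ∀ y, (fun y => min (u₂ y) (u₁ (2 • y))) (y + k) =
        (fun y => min (u₂ y) (u₁ (2 • y))) y := by
      intro k hk y
      show min (u₂ (y + k)) (u₁ (2 • (y + k))) = min (u₂ y) (u₁ (2 • y))
      rw [p2 k hk y]
      congr 1
      exact two_periodic p1 k hk y
    exact hD m hm H hH _ c2 hp
  have f1 : m (fun y => min (u₁ (2 • (2 • y))) (u₀ y)) = MM m H A₁ A₀ := by
    have hp : ∀ k ∈ H, ∀ y, (fun y => min (u₁ y) (u₀ (2 • y))) (y + k) =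
        (fun y => min (u₁ y) (u₀ (2 • y))) y := by
      intro k hk y
      show min (u₁ (y + k)) (u₀ (2 • (y + k))) = min (u₁ y) (u₀ (2 • y))
      rw [p1 k hk y]
      congr 1
      exact two_periodic p0 k hk y
    have h1 : m (fun y => min (u₁ (2 • (2 • y))) (u₀ y)) =
        m (fun y => (fun y => (fun y => min (u₁ y) (u₀ (2 • y))) (2 • y)) (2 • y)) := by
      congr 1
      funext y
      show min (u₁ (2 • (2 • y))) (u₀ y) = min (u₁ (2 • (2 • y))) (u₀ (2 • (2 • (2 • y))))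
      rw [eight]
    rw [h1]
    have c3 : Bdd (fun y => (fun y => min (u₁ y) (u₀ (2 • y))) (2 • y)) :=
      bdd_nsmul (fun y => min (u₁ y) (u₀ (2 • y))) 2
    rw [hD m hm H hH (fun y => (fun y => min (u₁ y) (u₀ (2 • y))) (2 • y)) c3
        (two_periodic (F := fun y => min (u₁ y) (u₀ (2 • y))) hp),
      hD m hm H hH (fun y => min (u₁ y) (u₀ (2 • y))) c1 hp]
    rfl
  have f0 : m (fun y => min (u₀ y) (u₂ (2 • y))) = MM m H A₀ A₂ := rfl
  -- integrate the inequality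
  have key := hm.mono (fun y => u₀ y + u₂ (2 • y) + u₁ (2 • (2 • y)))
    (fun y => 1 + (min (u₀ y) (u₂ (2 • y)) + min (u₂ (2 • y)) (u₁ (2 • (2 • y))) +
      min (u₁ (2 • (2 • y))) (u₀ y)))
    (fun y => tri_num _ _ _ (o0 _) (o2 _) (o1 _) (n0 _) (n2 _) (n1 _))
  rw [hm.add' (fun y => u₀ y + u₂ (2 • y)) (fun y => u₁ (2 • (2 • y))),
    hm.add' u₀ (fun y => u₂ (2 • y)), e0, e1, e2,
    hm.add' (fun _ => (1 : ℝ)) (fun y => min (u₀ y) (u₂ (2 • y)) +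
      min (u₂ (2 • y)) (u₁ (2 • (2 • y))) + min (u₁ (2 • (2 • y))) (u₀ y)), hm.one,
    hm.add' (fun y => min (u₀ y) (u₂ (2 • y)) + min (u₂ (2 • y)) (u₁ (2 • (2 • y))))
      (fun y => min (u₁ (2 • (2 • y))) (u₀ y)),
    hm.add' (fun y => min (u₀ y) (u₂ (2 • y))) (fun y => min (u₂ (2 • y)) (u₁ (2 • (2 • y)))),
    f0, f1, f2] at key
  linarith

lemma MM_le (hC : SCnd) (hm : IsMean m) (H : AddSubgroup G) (hH : H.FiniteIndex)
    (C A : Set G) : MM m H C A ^ 2 ≤ m (fun y => chi C y * cnd m H (chi A) (2 • y)) := by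
  have b1 : Bdd (cnd m H (chi A)) := bdd_cnd hm H (chi A)
  have b2 : Bdd (cnd m H (chi C)) := bdd_cnd hm H (chi C)
  have n1 := cnd_chi_nonneg hm H A
  have n2 := cnd_chi_nonneg hm H C
  have o2 := cnd_chi_le_one hC hm H hH C
  have h1 := hC m hm H hH (chi C) (fun y => cnd m H (chi A) (2 • y)) inferInstance inferInstance
    (two_periodic fun k hk y => cnd_periodic H (chi A) hk y)
  rw [h1]
  have b3 : Bdd (fun y => min (cnd m H (chi C) y) (cnd m H (chi A) (2 • y))) :=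
    bdd01 (fun x => le_min (n2 _) (n1 _)) (fun x => (min_le_left _ _).trans (o2 _))
  refine (hm.sq_le (fun y => min (cnd m H (chi C) y) (cnd m H (chi A) (2 • y)))).trans ?_
  refine hm.mono _ _ fun y => ?_
  rw [sq]
  exact mul_le_mul (min_le_left _ _) (min_le_right _ _) (le_min (n2 _) (n1 _)) (n2 _)

lemma pos_of (hC : SCnd) (hD : SDbl) (hm : IsMean m) (H₀ : AddSubgroup G) (hH₀ : H₀.FiniteIndex)
    (C A : Set G) (ε : ℝ) (hε : 0 < ε)
    (hst : ∀ H' : AddSubgroup G, H'.FiniteIndex → H' ≤ H₀ →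
      m (fun x => (cnd m H' (chi A) x - cnd m H₀ (chi A) x) ^ 2) ≤ (ε ^ 2 / 2) ^ 2)
    (hM : ε ≤ MM m H₀ C A) : Pos m A C := by
  refine ⟨ε ^ 2 / 2, by positivity, H₀, hH₀, fun H hH hle => ?_⟩
  have b1 : Bdd (cnd m H (chi A)) := bdd_cnd hm H (chi A)
  have b2 : Bdd (cnd m H₀ (chi A)) := bdd_cnd hm H₀ (chi A)
  have h1 := MM_le hC hm H₀ hH₀ C A
  have h2 : ε ^ 2 ≤ MM m H₀ C A ^ 2 := pow_le_pow_left₀ hε.le hM 2
  have h3 : m (fun y => chi C y * cnd m H (chi A) (2 • y)) =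
      m (fun y => chi C y * cnd m H₀ (chi A) (2 • y)) +
      m (fun y => chi C y * (cnd m H (chi A) (2 • y) - cnd m H₀ (chi A) (2 • y))) := by
    rw [← hm.add' (fun y => chi C y * cnd m H₀ (chi A) (2 • y))
      (fun y => chi C y * (cnd m H (chi A) (2 • y) - cnd m H₀ (chi A) (2 • y)))]
    congr 1
    funext y
    ring
  have h4 : m (fun y => (cnd m H (chi A) (2 • y) - cnd m H₀ (chi A) (2 • y)) ^ 2) =
      m (fun y => (cnd m H (chi A) y - cnd m H₀ (chi A) y) ^ 2) := by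
    have hp : ∀ k ∈ H, ∀ y, (fun y => (cnd m H (chi A) y - cnd m H₀ (chi A) y) ^ 2) (y + k) =
        (fun y => (cnd m H (chi A) y - cnd m H₀ (chi A) y) ^ 2) y := by
      intro k hk y
      show (cnd m H (chi A) (y + k) - cnd m H₀ (chi A) (y + k)) ^ 2 = _
      rw [cnd_periodic H (chi A) hk y, cnd_periodic H₀ (chi A) (hle hk) y]
    exact hD m hm H hH (fun y => (cnd m H (chi A) y - cnd m H₀ (chi A) y) ^ 2) inferInstance hp
  have h5 := hm.cauchy (chi C) (fun y => cnd m H (chi A) (2 • y) - cnd m H₀ (chi A) (2 • y))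
  have h6 : m (fun x => chi C x ^ 2) ≤ 1 := hm.le_of_le fun x => by
    have := chi_le_one C x
    have := chi_nonneg C x
    nlinarith
  have h7 : 0 ≤ m (fun x => chi C x ^ 2) := hm.nonneg _ inferInstance fun x => sq_nonneg _
  have h8 := hst H hH hle
  rw [← h4] at h8
  have h9 : 0 ≤ m (fun y => (cnd m H (chi A) (2 • y) - cnd m H₀ (chi A) (2 • y)) ^ 2) :=
    hm.nonneg _ inferInstance fun x => sq_nonneg _
  have h10 : (m (fun y => chi C y * (cnd m H (chi A) (2 • y) - cnd m H₀ (chi A) (2 • y)))) ^ 2 ≤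
      (ε ^ 2 / 2) ^ 2 := by
    refine h5.trans (le_trans ?_ h8)
    calc _ ≤ 1 * m (fun y => (cnd m H (chi A) (2 • y) - cnd m H₀ (chi A) (2 • y)) ^ 2) :=
          mul_le_mul_of_nonneg_right h6 h9
      _ = _ := one_mul _
  have h11 := abs_le_of_sq_le_sq h10 (by positivity)
  have h12 := (abs_le.1 h11).1
  rw [h3]
  linarith

/-- A subgroup of a stable subgroup is stable. -/
lemma stab_sub (hm : IsMean m) (f : G → ℝ) [hf : Bdd f] (H₁ : AddSubgroup G) (δ : ℝ)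
    (hst : ∀ H' : AddSubgroup G, H'.FiniteIndex → H' ≤ H₁ →
      m (fun x => (cnd m H' f x - cnd m H₁ f x) ^ 2) ≤ δ / 4)
    (H₀ : AddSubgroup G) (hH₀ : H₀.FiniteIndex) (hle : H₀ ≤ H₁) :
    ∀ H' : AddSubgroup G, H'.FiniteIndex → H' ≤ H₀ →
      m (fun x => (cnd m H' f x - cnd m H₀ f x) ^ 2) ≤ δ := by
  intro H' hH' hle'
  have b1 : Bdd (cnd m H' f) := bdd_cnd hm H' f
  have b2 : Bdd (cnd m H₀ f) := bdd_cnd hm H₀ f
  have b3 : Bdd (cnd m H₁ f) := bdd_cnd hm H₁ f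
  have h1 := hst H' hH' (hle'.trans hle)
  have h2 := hst H₀ hH₀ hle
  have h3 := hm.mono (fun x => (cnd m H' f x - cnd m H₀ f x) ^ 2)
    (fun x => 2 * (cnd m H' f x - cnd m H₁ f x) ^ 2 + 2 * (cnd m H₀ f x - cnd m H₁ f x) ^ 2)
    (fun x => by nlinarith [sq_nonneg ((cnd m H' f x - cnd m H₁ f x) +
      (cnd m H₀ f x - cnd m H₁ f x))])
  rw [hm.add' (fun x => 2 * (cnd m H' f x - cnd m H₁ f x) ^ 2)
    (fun x => 2 * (cnd m H₀ f x - cnd m H₁ f x) ^ 2),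
    hm.smul' 2 (fun x => (cnd m H' f x - cnd m H₁ f x) ^ 2),
    hm.smul' 2 (fun x => (cnd m H₀ f x - cnd m H₁ f x) ^ 2)] at h3
  linarith

/-- **BB15.** -/
theorem tTri : SCnd → SDbl → SStab → STri := by
  intro hC hD hS m hm A hA
  set A₁ : Set G := {x | 2 • x ∈ A} with hA₁
  set A₂ : Set G := {x | 4 • x ∈ A} with hA₂
  obtain ⟨ε, hε, hsum⟩ : ∃ ε : ℝ, 0 < ε ∧ m (chi A) + m (chi A₁) + m (chi A₂) = 1 + 3 * ε :=
    ⟨(m (chi A) + m (chi A₁) + m (chi A₂) - 1) / 3, by linarith, by ring⟩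
  set δ := (ε ^ 2 / 2) ^ 2 with hδ
  have hδ0 : 0 < δ / 4 := by positivity
  obtain ⟨Ha, hHa, _, hsa⟩ := hS m hm (chi A) (abs_chi_le A) (δ / 4) hδ0 ⊤ inferInstance
  obtain ⟨Hb, hHb, hba, hsb⟩ := hS m hm (chi A₁) (abs_chi_le A₁) (δ / 4) hδ0 Ha hHa
  obtain ⟨Hc, hHc, hcb, hsc⟩ := hS m hm (chi A₂) (abs_chi_le A₂) (δ / 4) hδ0 Hb hHb
  have s0 := stab_sub hm (chi A) Ha δ hsa Hc hHc (hcb.trans hba)
  have s1 := stab_sub hm (chi A₁) Hb δ hsb Hc hHc hcb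
  have s2 := stab_sub hm (chi A₂) Hc δ hsc Hc hHc le_rfl
  have htri := tri_mean hC hD hm Hc hHc A A₁ A₂
  rw [hsum] at htri
  by_cases h0 : ε ≤ MM m Hc A₁ A
  · exact Or.inl (pos_of hC hD hm Hc hHc A₁ A ε hε s0 h0)
  by_cases h1 : ε ≤ MM m Hc A₂ A₁
  · exact Or.inr (Or.inl (pos_of hC hD hm Hc hHc A₂ A₁ ε hε s1 h1))
  by_cases h2 : ε ≤ MM m Hc A A₂
  · exact Or.inr (Or.inr (pos_of hC hD hm Hc hHc A A₂ ε hε s2 h2))
  exfalso
  push Not at h0 h1 h2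
  linarith

end Pool.Agent.Q53.BB
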