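import Pool.Agent.Q78.BB.Stm

/-!
# Project BB (helper78), job K8: the kernels for `N = 1, 2`
-/

set_option autoImplicit false

open MeasureTheory Set Filter Topology

namespace Pool.Agent.Q53.BB.K8

open Pool.Agent.Q276.BA (cc pp qq eO)

theorem sq_rpow (b : ℕ) {v : ℝ} (hv : 0 < v) : (Real.sqrt v) ^ b / v = v ^ ((b : ℝ) / 2 - 1) := by
  rw [Real.rpow_sub_one hv.ne', Real.sqrt_eq_rpow, ← Real.rpow_natCast, ← Real.rpow_mul hv.le]
  congr 2
  ring

theorem I1 (b : ℕ) (hb : 1 ≤ b) : IntervalIntegrable (fun v : ℝ => v ^ ((b : ℝ) / 2 - 1)) volume 0 1 := by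
  have hb' : (1 : ℝ) ≤ b := by exact_mod_cast hb
  exact intervalIntegral.intervalIntegrable_rpow' (by linarith)

theorem I1v (b : ℕ) (hb : 1 ≤ b) : ∫ v in (0 : ℝ)..1, v ^ ((b : ℝ) / 2 - 1) = 2 / b := by
  have hb' : (1 : ℝ) ≤ b := by exact_mod_cast hb
  have hb0 : (b : ℝ) ≠ 0 := by linarith
  rw [integral_rpow (Or.inl (by linarith)), Real.one_rpow, Real.zero_rpow (by linarith)]
  rw [show (b : ℝ) / 2 - 1 + 1 = b / 2 by ring, sub_zero, one_div_div]

theorem I2 (b : ℕ) : IntervalIntegrable (fun v : ℝ => v ^ ((b : ℝ) / 2)) volume 0 1 := by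
  have hb' : (0 : ℝ) ≤ b := b.cast_nonneg
  exact intervalIntegral.intervalIntegrable_rpow' (by linarith)

theorem I2v (b : ℕ) : ∫ v in (0 : ℝ)..1, v ^ ((b : ℝ) / 2) = 2 / (b + 2) := by
  have hb' : (0 : ℝ) ≤ b := b.cast_nonneg
  rw [integral_rpow (Or.inl (by linarith)), Real.one_rpow, Real.zero_rpow (by linarith)]
  field_simp
  ring

theorem pp1 (b : ℕ) (v : ℝ) : pp b 1 v = -((b : ℝ) + 1) := by
  unfold pp cc
  simp
  ring

theorem ch2 (n : ℕ) : (((n + 2).choose 2 : ℕ) : ℝ) = ((n : ℝ) + 2) * (n + 1) / 2 := by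
  rw [Nat.cast_choose_two]
  push_cast
  ring

theorem pp2 (b : ℕ) (v : ℝ) : pp b 2 v = ((b : ℝ) + 2) * ((b + 1) * (1 - v) - 2 * v) := by
  unfold pp cc
  rw [Finset.sum_range_succ, Finset.sum_range_one]
  have h1 : (((2 + b + 0).choose 2 : ℕ) : ℝ) = ((b : ℝ) + 2) * (b + 1) / 2 := by
    rw [show 2 + b + 0 = b + 2 by ring, ch2]
  have h2 : (((2 + b + 1).choose 2 : ℕ) : ℝ) = ((b : ℝ) + 3) * (b + 2) / 2 := by
    rw [show 2 + b + 1 = (b + 1) + 2 by ring, ch2]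
    push_cast
    ring
  rw [h1, h2]
  norm_num
  ring

theorem e1 : (5 : ℝ) ≤ eO 1 := by
  unfold eO
  have h : Real.exp (2 * ∑ j ∈ Finset.range 1, 1 / (2 * (j : ℝ) + 1)) = Real.exp 1 ^ 2 := by
    rw [← Real.exp_nat_mul]
    norm_num
  rw [h]
  have := Real.exp_one_gt_d9
  nlinarith

theorem e2 : (13 : ℝ) ≤ eO 2 := by
  unfold eO
  have h : Real.exp (2 * ∑ j ∈ Finset.range 2, 1 / (2 * (j : ℝ) + 1)) = Real.exp (8 / 3) := by
    rw [Finset.sum_range_succ, Finset.sum_range_one]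
    norm_num
  rw [h]
  have h3 : Real.exp (8 / 3) ^ 3 = Real.exp 1 ^ 8 := by
    rw [← Real.exp_nat_mul, ← Real.exp_nat_mul]
    norm_num
  have h4 : (2.7 : ℝ) ^ 8 ≤ Real.exp 1 ^ 8 := by
    refine pow_le_pow_left₀ (by norm_num) ?_ 8
    have := Real.exp_one_gt_d9
    linarith
  by_contra hlt
  rw [not_le] at hlt
  have h5 : Real.exp (8 / 3) ^ 3 ≤ 13 ^ 3 := pow_le_pow_left₀ (Real.exp_pos _).le hlt.le 3
  rw [h3] at h5
  have h6 : (13 : ℝ) ^ 3 < (2.7 : ℝ) ^ 8 := by norm_num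
  linarith

theorem bound1 (b : ℕ) (hb : 1 ≤ b) : ∫ v in (0 : ℝ)..1, |qq b 1 v| / v ≤ 4 := by
  have hb' : (1 : ℝ) ≤ b := by exact_mod_cast hb
  have h : ∫ v in (0 : ℝ)..1, |qq b 1 v| / v = ∫ v in (0 : ℝ)..1, ((b : ℝ) + 1) * v ^ ((b : ℝ) / 2 - 1) := by
    rw [intervalIntegral.integral_of_le zero_le_one, intervalIntegral.integral_of_le zero_le_one]
    refine setIntegral_congr_fun measurableSet_Ioc fun v hv => ?_
    rw [← sq_rpow b hv.1]
    unfold qq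
    rw [pp1, abs_mul, abs_neg, abs_of_nonneg (by positivity : (0 : ℝ) ≤ (Real.sqrt v) ^ b),
      abs_of_nonneg (by positivity : (0 : ℝ) ≤ (b : ℝ) + 1)]
    ring
  rw [h, intervalIntegral.integral_const_mul, I1v b hb]
  have h2 : ((b : ℝ) + 1) * (2 / b) = 2 + 2 / b := by
    field_simp
  rw [h2]
  have h3 : 2 / (b : ℝ) ≤ 2 := by
    rw [div_le_iff₀ (by linarith)]
    linarith
  linarith

theorem bound2 (b : ℕ) (hb : 1 ≤ b) : ∫ v in (0 : ℝ)..1, |qq b 2 v| / v ≤ 12 := by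
  have hb' : (1 : ℝ) ≤ b := by exact_mod_cast hb
  have hI : IntervalIntegrable (fun v : ℝ => ((b : ℝ) + 2) * (b + 1) * v ^ ((b : ℝ) / 2 - 1) -
      ((b : ℝ) + 2) * (b - 1) * v ^ ((b : ℝ) / 2)) volume 0 1 :=
    ((I1 b hb).const_mul _).sub ((I2 b).const_mul _)
  have hpt : ∀ v ∈ Ioc (0 : ℝ) 1, |qq b 2 v| / v ≤ ((b : ℝ) + 2) * (b + 1) * v ^ ((b : ℝ) / 2 - 1) -
      ((b : ℝ) + 2) * (b - 1) * v ^ ((b : ℝ) / 2) := by
    intro v hv
    have e0 : v ^ ((b : ℝ) / 2) = v ^ ((b : ℝ) / 2 - 1) * v := by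
      rw [Real.rpow_sub_one hv.1.ne', div_mul_cancel₀ _ hv.1.ne']
    have e3 : |pp b 2 v| ≤ ((b : ℝ) + 2) * ((b + 1) * (1 - v) + 2 * v) := by
      rw [pp2, abs_mul, abs_of_nonneg (by positivity : (0 : ℝ) ≤ (b : ℝ) + 2)]
      refine mul_le_mul_of_nonneg_left ?_ (by positivity)
      have h1 : 0 ≤ ((b : ℝ) + 1) * (1 - v) := mul_nonneg (by positivity) (by linarith [hv.2])
      have h2 : 0 < v := hv.1
      rw [abs_le]
      constructor <;> linarith
    have e4 : |qq b 2 v| / v = v ^ ((b : ℝ) / 2 - 1) * |pp b 2 v| := by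
      rw [← sq_rpow b hv.1]
      unfold qq
      rw [abs_mul, abs_of_nonneg (by positivity : (0 : ℝ) ≤ (Real.sqrt v) ^ b)]
      ring
    rw [e4, e0]
    have e5 : 0 ≤ v ^ ((b : ℝ) / 2 - 1) := Real.rpow_nonneg hv.1.le _
    calc v ^ ((b : ℝ) / 2 - 1) * |pp b 2 v|
        ≤ v ^ ((b : ℝ) / 2 - 1) * (((b : ℝ) + 2) * ((b + 1) * (1 - v) + 2 * v)) :=
          mul_le_mul_of_nonneg_left e3 e5
      _ = _ := by ring
  have hmeas : Measurable fun v : ℝ => |qq b 2 v| / v := by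
    have : (fun v : ℝ => |qq b 2 v| / v) =
        fun v : ℝ => |Real.sqrt v ^ b * (((b : ℝ) + 2) * ((b + 1) * (1 - v) - 2 * v))| / v := by
      funext v
      unfold qq
      rw [pp2]
    rw [this]
    fun_prop
  have hI' : IntervalIntegrable (fun v : ℝ => |qq b 2 v| / v) volume 0 1 := by
    rw [intervalIntegrable_iff_integrableOn_Ioc_of_le zero_le_one] at hI ⊢
    refine hI.mono' hmeas.aestronglyMeasurable ?_
    refine (ae_restrict_mem measurableSet_Ioc).mono fun v hv => ?_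
    rw [Real.norm_eq_abs, abs_of_nonneg (div_nonneg (abs_nonneg _) hv.1.le)]
    exact hpt v hv
  have h1 : ∫ v in (0 : ℝ)..1, |qq b 2 v| / v ≤ ∫ v in (0 : ℝ)..1,
      (((b : ℝ) + 2) * (b + 1) * v ^ ((b : ℝ) / 2 - 1) - ((b : ℝ) + 2) * (b - 1) * v ^ ((b : ℝ) / 2)) := by
    rw [intervalIntegral.integral_of_le zero_le_one, intervalIntegral.integral_of_le zero_le_one]
    rw [intervalIntegrable_iff_integrableOn_Ioc_of_le zero_le_one] at hI hI'
    exact setIntegral_mono_on hI' hI measurableSet_Ioc hpt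
  refine h1.trans ?_
  rw [intervalIntegral.integral_sub ((I1 b hb).const_mul _) ((I2 b).const_mul _),
    intervalIntegral.integral_const_mul, intervalIntegral.integral_const_mul, I1v b hb, I2v b]
  have h2 : ((b : ℝ) + 2) * (b + 1) * (2 / b) - ((b : ℝ) + 2) * (b - 1) * (2 / (b + 2)) = 8 + 4 / b := by
    field_simp
    ring
  rw [h2]
  have h3 : 4 / (b : ℝ) ≤ 4 := by
    rw [div_le_iff₀ (by linarith)]
    linarith
  linarith

/-- **Job K8.** -/
theorem k8 : Pool.Agent.Q78.BB.S_K8 := by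
  intro b N hb hN1 hN2
  have h : N = 1 ∨ N = 2 := by omega
  rcases h with rfl | rfl
  · have h1 := bound1 b hb
    have h2 := e1
    linarith
  · have h1 := bound2 b hb
    have h2 := e2
    linarith

end Pool.Agent.Q53.BB.K8
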