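import Pool.Agent.Q78.BB.Stm
import Pool.Agent.Q121.BA.E1

/-!
# Project BB (helper78), job O1: the adjoint operator does not increase the norm of `L²`

The proof copies that of `Pool.Agent.Q121.BA.E1` (helper121), with the dilations by `v ^ (-1/2)`.
-/

set_option autoImplicit false

open MeasureTheory Set Filter Topology
open scoped BigOperators ENNReal

namespace Pool.Agent.Q53.BB.O

open Pool.Agent.Q121.BA.E (mu dil dilI pairI aeP cor cor_int cor_norm cor_conj cor_dil)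

/-- the inverse of the square root -/
noncomputable abbrev si (v : ℝ) : ℝ := (Real.sqrt v)⁻¹

theorem si_pos {v : ℝ} (hv : 0 < v) : 0 < si v := inv_pos.2 (Real.sqrt_pos.2 hv)

/-- the kernel times the norm of the dilation is bounded -/
theorem kb {q : ℝ → ℝ} {c : ℝ} (hc : ∀ v, 0 ≤ v → v ≤ 1 → |q v| ≤ c * Real.sqrt v) {v : ℝ} (h0 : 0 < v)
    (h1 : v ≤ 1) : |q v / v| * (si v)⁻¹ ≤ c := by
  have h2 := hc v h0.le h1
  have h3 : 0 < Real.sqrt v := Real.sqrt_pos.2 h0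
  have h4 : Real.sqrt v * Real.sqrt v = v := Real.mul_self_sqrt h0.le
  unfold si
  rw [inv_inv, abs_div, abs_of_pos h0, div_mul_eq_mul_div, div_le_iff₀ h0]
  calc |q v| * Real.sqrt v ≤ c * Real.sqrt v * Real.sqrt v := mul_le_mul_of_nonneg_right h2 h3.le
    _ = c * v := by rw [mul_assoc, h4]

theorem c_nonneg {q : ℝ → ℝ} {c : ℝ} (hc : ∀ v, 0 ≤ v → v ≤ 1 → |q v| ≤ c * Real.sqrt v) : 0 ≤ c := by
  have h := hc 1 zero_le_one le_rfl
  rw [Real.sqrt_one, mul_one] at h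
  exact (abs_nonneg _).trans h

/-- the integrand -/
noncomputable def FF (q : ℝ → ℝ) (h : ℂ → ℂ) (x : (ℝ × ℝ) × ℂ) : ℂ :=
  (((q x.1.1 / x.1.1 : ℝ) : ℂ) * h ((si x.1.1 : ℂ) * x.2)) *
    (starRingEnd ℂ) (((q x.1.2 / x.1.2 : ℝ) : ℂ) * h ((si x.1.2 : ℂ) * x.2))

theorem FF_meas (q : ℝ → ℝ) (hq : Continuous q) (h : ℂ → ℂ) (hm : Measurable h) : Measurable (FF q h) := by
  unfold FF
  have hq' := hq.measurable
  refine Measurable.mul (by fun_prop) ?_
  exact Complex.continuous_conj.measurable.comp (by fun_prop)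

theorem mu_fin : IsFiniteMeasure mu := by infer_instance

theorem FF_int (q : ℝ → ℝ) (c : ℝ) (hq : Continuous q) (hc : ∀ v, 0 ≤ v → v ≤ 1 → |q v| ≤ c * Real.sqrt v)
    (h : ℂ → ℂ) (hm : Measurable h) (hI : Integrable (fun z : ℂ => ‖h z‖ ^ 2) (volume : Measure ℂ)) :
    Integrable (FF q h) ((mu.prod mu).prod (volume : Measure ℂ)) := by
  have hc0 := c_nonneg hc
  rw [integrable_prod_iff (FF_meas q hq h hm).aestronglyMeasurable]
  have hn : ∀ x : (ℝ × ℝ) × ℂ, ‖FF q h x‖ = (|q x.1.1 / x.1.1| * |q x.1.2 / x.1.2|) *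
      (‖h ((si x.1.1 : ℂ) * x.2)‖ * ‖h ((si x.1.2 : ℂ) * x.2)‖) := by
    intro x
    unfold FF
    rw [norm_mul, RCLike.norm_conj, norm_mul, norm_mul, Complex.norm_real, Complex.norm_real]
    simp only [Real.norm_eq_abs]
    ring
  constructor
  · filter_upwards [aeP] with p hp
    have h1 := (pairI h hm hI (si p.1) (si p.2) (si_pos hp.1.1) (si_pos hp.2.1)).1
    refine (h1.const_mul (|q p.1 / p.1| * |q p.2 / p.2|)).mono' ?_ (Eventually.of_forall fun z => ?_)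
    · exact ((FF_meas q hq h hm).comp (by fun_prop : Measurable fun z : ℂ => (p, z))).aestronglyMeasurable
    · rw [hn]
  · refine (integrable_const (c * c * ∫ z : ℂ, ‖h z‖ ^ 2)).mono' ?_ ?_
    · exact ((FF_meas q hq h hm).norm.stronglyMeasurable.integral_prod_right').aestronglyMeasurable
    · filter_upwards [aeP] with p hp
      have h1 := (pairI h hm hI (si p.1) (si p.2) (si_pos hp.1.1) (si_pos hp.2.1)).2
      simp only [hn]
      rw [integral_const_mul, Real.norm_of_nonneg (by positivity)]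
      have h3 := kb hc hp.1.1 hp.1.2
      have h4 := kb hc hp.2.1 hp.2.2
      have hs1 := si_pos hp.1.1
      have hs2 := si_pos hp.2.1
      have hI0 : 0 ≤ ∫ z : ℂ, ‖h z‖ ^ 2 := integral_nonneg fun z => by positivity
      calc |q p.1 / p.1| * |q p.2 / p.2| * ∫ z : ℂ, ‖h ((si p.1 : ℂ) * z)‖ * ‖h ((si p.2 : ℂ) * z)‖
          ≤ |q p.1 / p.1| * |q p.2 / p.2| * ((si p.1)⁻¹ * (si p.2)⁻¹ * ∫ z : ℂ, ‖h z‖ ^ 2) :=
            mul_le_mul_of_nonneg_left h1 (by positivity)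
        _ = (|q p.1 / p.1| * (si p.1)⁻¹) * (|q p.2 / p.2| * (si p.2)⁻¹) * ∫ z : ℂ, ‖h z‖ ^ 2 := by ring
        _ ≤ c * c * ∫ z : ℂ, ‖h z‖ ^ 2 :=
            mul_le_mul_of_nonneg_right (mul_le_mul h3 h4 (by positivity) hc0) hI0

theorem FF_z (q : ℝ → ℝ) (h : ℂ → ℂ) (p : ℝ × ℝ) :
    ∫ z : ℂ, FF q h (p, z) = (((q p.1 / p.1 : ℝ) : ℂ) * ((q p.2 / p.2 : ℝ) : ℂ)) * cor h (si p.1) (si p.2) := by
  unfold FF cor
  rw [← integral_const_mul]
  refine integral_congr_ae (Eventually.of_forall fun z => ?_)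
  simp only [map_mul, Complex.conj_ofReal]
  ring

/-- the integral part of the operator -/
noncomputable def KK (q : ℝ → ℝ) (h : ℂ → ℂ) (z : ℂ) : ℂ :=
  ∫ v, ((q v / v : ℝ) : ℂ) * h ((si v : ℂ) * z) ∂mu

theorem FF_vw (q : ℝ → ℝ) (h : ℂ → ℂ) (z : ℂ) :
    ∫ p, FF q h (p, z) ∂(mu.prod mu) = KK q h z * (starRingEnd ℂ) (KK q h z) := by
  unfold KK
  rw [← integral_conj, ← integral_prod_mul]
  rfl

theorem KK_sqI (q : ℝ → ℝ) (c : ℝ) (hq : Continuous q) (hc : ∀ v, 0 ≤ v → v ≤ 1 → |q v| ≤ c * Real.sqrt v)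
    (h : ℂ → ℂ) (hm : Measurable h) (hI : Integrable (fun z : ℂ => ‖h z‖ ^ 2) (volume : Measure ℂ)) :
    Integrable (fun z : ℂ => KK q h z * (starRingEnd ℂ) (KK q h z)) (volume : Measure ℂ) := by
  have h1 := (FF_int q c hq hc h hm hI).integral_prod_right
  simpa only [FF_vw] using h1

theorem KK_sq (q : ℝ → ℝ) (c : ℝ) (hq : Continuous q) (hc : ∀ v, 0 ≤ v → v ≤ 1 → |q v| ≤ c * Real.sqrt v)
    (h : ℂ → ℂ) (hm : Measurable h) (hI : Integrable (fun z : ℂ => ‖h z‖ ^ 2) (volume : Measure ℂ)) :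
    ∫ z : ℂ, KK q h z * (starRingEnd ℂ) (KK q h z) =
      ∫ p, (((q p.1 / p.1 : ℝ) : ℂ) * ((q p.2 / p.2 : ℝ) : ℂ)) * cor h (si p.1) (si p.2) ∂(mu.prod mu) := by
  have h1 := integral_integral_swap (f := fun (p : ℝ × ℝ) (z : ℂ) => FF q h (p, z)) (FF_int q c hq hc h hm hI)
  simp only [FF_vw, FF_z] at h1
  exact h1.symm

theorem WW_int (q : ℝ → ℝ) (c : ℝ) (hq : Continuous q) (hc : ∀ v, 0 ≤ v → v ≤ 1 → |q v| ≤ c * Real.sqrt v)
    (h : ℂ → ℂ) (hm : Measurable h) (hI : Integrable (fun z : ℂ => ‖h z‖ ^ 2) (volume : Measure ℂ)) :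
    Integrable (fun p : ℝ × ℝ => (((q p.1 / p.1 : ℝ) : ℂ) * ((q p.2 / p.2 : ℝ) : ℂ)) * cor h (si p.1) (si p.2))
      (mu.prod mu) := by
  have h1 := (FF_int q c hq hc h hm hI).integral_prod_left
  simpa only [FF_z] using h1

theorem cor_meas (h : ℂ → ℂ) (hm : Measurable h) : Measurable (fun v : ℝ => cor h (si v) 1) := by
  have h1 : Measurable (fun x : ℝ × ℂ => h ((si x.1 : ℂ) * x.2) * (starRingEnd ℂ) (h ((1 : ℝ) * x.2))) := by
    refine Measurable.mul (by fun_prop) ?_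
    exact Complex.continuous_conj.measurable.comp (by fun_prop)
  exact (h1.stronglyMeasurable.integral_prod_right' (ν := (volume : Measure ℂ))).measurable

theorem half (q : ℝ → ℝ) (c : ℝ) (hq : Continuous q) (hc : ∀ v, 0 ≤ v → v ≤ 1 → |q v| ≤ c * Real.sqrt v)
    (hk : ∀ lam : ℝ, 0 < lam → lam < 1 → ∫ w in (0 : ℝ)..1, q (lam * w) * q w = - q lam)
    (h : ℂ → ℂ) (hm : Measurable h)
    (hI : Integrable (fun z : ℂ => ‖h z‖ ^ 2) (volume : Measure ℂ)) (s : Set (ℝ × ℝ)) (hs : MeasurableSet s)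
    (hs1 : ∀ v w : ℝ, v < w → (v, w) ∈ s) (hs2 : ∀ v w : ℝ, w < v → (v, w) ∉ s) :
    ∫ p, s.indicator (fun p : ℝ × ℝ => (((q p.1 / p.1 : ℝ) : ℂ) * ((q p.2 / p.2 : ℝ) : ℂ)) *
      cor h (si p.1) (si p.2)) p ∂(mu.prod mu) = - ∫ v, ((q v / v : ℝ) : ℂ) * cor h (si v) 1 ∂mu := by
  have hc0 := c_nonneg hc
  rw [integral_prod_symm _ ((WW_int q c hq hc h hm hI).indicator hs)]
  have e1 : ∀ w ∈ Ioc (0 : ℝ) 1, ∫ v, s.indicator (fun p : ℝ × ℝ =>
      (((q p.1 / p.1 : ℝ) : ℂ) * ((q p.2 / p.2 : ℝ) : ℂ)) * cor h (si p.1) (si p.2)) (v, w) ∂mu =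
      ∫ l, ((q (l * w) * q w / l : ℝ) : ℂ) * cor h (si l) 1 ∂mu := by
    intro w hw
    have e2 : ∫ v, s.indicator (fun p : ℝ × ℝ => (((q p.1 / p.1 : ℝ) : ℂ) * ((q p.2 / p.2 : ℝ) : ℂ)) *
        cor h (si p.1) (si p.2)) (v, w) ∂mu =
        ∫ v, (Iic w).indicator (fun v : ℝ => (((q v / v : ℝ) : ℂ) * ((q w / w : ℝ) : ℂ)) *
          cor h (si v) (si w)) v ∂mu := by
      refine integral_congr_ae ?_
      have h0 : ∀ᵐ v : ℝ ∂mu, v ≠ w := by
        refine ae_restrict_of_ae ?_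
        rw [ae_iff]
        simp
      filter_upwards [h0] with v hv
      rcases lt_or_gt_of_ne hv with h1 | h1
      · rw [indicator_of_mem (hs1 v w h1), indicator_of_mem (mem_Iic.2 h1.le)]
      · rw [indicator_of_notMem (hs2 v w h1), indicator_of_notMem (by simpa using h1)]
    rw [e2, integral_indicator measurableSet_Iic, Measure.restrict_restrict measurableSet_Iic]
    have e3 : Iic w ∩ Ioc (0 : ℝ) 1 = Ioc 0 w := by
      ext v
      simp only [mem_inter_iff, mem_Iic, mem_Ioc]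
      constructor
      · rintro ⟨h1, h2, h3⟩
        exact ⟨h2, h1⟩
      · rintro ⟨h1, h2⟩
        exact ⟨h2, h1, h2.trans hw.2⟩
    rw [e3, ← intervalIntegral.integral_of_le hw.1.le]
    have e4 := intervalIntegral.integral_comp_mul_right (a := (0 : ℝ)) (b := 1)
      (fun v : ℝ => (((q v / v : ℝ) : ℂ) * ((q w / w : ℝ) : ℂ)) * cor h (si v) (si w)) hw.1.ne'
    rw [zero_mul, one_mul] at e4
    have e5 : ∫ v in (0 : ℝ)..w, (((q v / v : ℝ) : ℂ) * ((q w / w : ℝ) : ℂ)) * cor h (si v) (si w) =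
        w • ∫ l in (0 : ℝ)..1, (((q (l * w) / (l * w) : ℝ) : ℂ) * ((q w / w : ℝ) : ℂ)) *
          cor h (si (l * w)) (si w) := by
      rw [e4, smul_smul, mul_inv_cancel₀ hw.1.ne', one_smul]
    rw [e5, intervalIntegral.integral_of_le zero_le_one, ← integral_smul]
    refine integral_congr_ae ?_
    filter_upwards [ae_restrict_mem measurableSet_Ioc] with l hl
    have e6 : si (l * w) = si l * si w := by
      unfold si
      rw [Real.sqrt_mul hl.1.le, mul_inv]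
    rw [e6, cor_dil h _ _ (si_pos hw.1)]
    have e7 : ((si w) ^ 2)⁻¹ = w := by
      unfold si
      rw [inv_pow, inv_inv, Real.sq_sqrt hw.1.le]
    rw [e7]
    simp only [Complex.real_smul]
    have hw0 : (w : ℂ) ≠ 0 := by exact_mod_cast hw.1.ne'
    have hl0 : (l : ℂ) ≠ 0 := by exact_mod_cast hl.1.ne'
    push_cast
    field_simp
  rw [setIntegral_congr_fun measurableSet_Ioc e1]
  have hint : Integrable (fun x : ℝ × ℝ => ((q (x.2 * x.1) * q x.1 / x.2 : ℝ) : ℂ) * cor h (si x.2) 1)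
      (mu.prod mu) := by
    refine (integrable_const (c * c * ∫ z : ℂ, ‖h z‖ ^ 2)).mono' ?_ ?_
    · have hq' := hq.measurable
      refine (Measurable.mul (by fun_prop) ((cor_meas h hm).comp measurable_snd)).aestronglyMeasurable
    · filter_upwards [aeP] with p hp
      have h1 := cor_norm h hm hI (si p.2) 1 (si_pos hp.2.1) one_pos
      have hI0 : 0 ≤ ∫ z : ℂ, ‖h z‖ ^ 2 := integral_nonneg fun z => by positivity
      have h3 : |q p.1| ≤ c * Real.sqrt p.1 := hc p.1 hp.1.1.le hp.1.2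
      have h4 : |q (p.2 * p.1)| ≤ c * (Real.sqrt p.2 * Real.sqrt p.1) := by
        rw [← Real.sqrt_mul hp.2.1.le]
        exact hc _ (mul_nonneg hp.2.1.le hp.1.1.le) (mul_le_one₀ hp.2.2 hp.1.1.le hp.1.2)
      have h5 : Real.sqrt p.1 * Real.sqrt p.1 = p.1 := Real.mul_self_sqrt hp.1.1.le
      have h6 : Real.sqrt p.2 * Real.sqrt p.2 = p.2 := Real.mul_self_sqrt hp.2.1.le
      have h7 : 0 ≤ Real.sqrt p.1 := Real.sqrt_nonneg _
      have h8 : 0 ≤ Real.sqrt p.2 := Real.sqrt_nonneg _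
      have hp2 : 0 < p.2 := hp.2.1
      have h9 : (si p.2)⁻¹ = Real.sqrt p.2 := inv_inv _
      rw [h9] at h1
      rw [norm_mul, Complex.norm_real, Real.norm_eq_abs, abs_div, abs_mul, abs_of_pos hp2]
      calc |q (p.2 * p.1)| * |q p.1| / p.2 * ‖cor h (si p.2) 1‖
          ≤ (c * (Real.sqrt p.2 * Real.sqrt p.1)) * (c * Real.sqrt p.1) / p.2 *
              (Real.sqrt p.2 * 1⁻¹ * ∫ z : ℂ, ‖h z‖ ^ 2) := by
            refine mul_le_mul ?_ h1 (norm_nonneg _) (by positivity)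
            exact div_le_div_of_nonneg_right (mul_le_mul h4 h3 (abs_nonneg _) (by positivity)) hp2.le
        _ = c * c * (Real.sqrt p.1 * Real.sqrt p.1) * ((Real.sqrt p.2 * Real.sqrt p.2) / p.2) *
              ∫ z : ℂ, ‖h z‖ ^ 2 := by
            rw [inv_one]; ring
        _ = c * c * p.1 * ∫ z : ℂ, ‖h z‖ ^ 2 := by
            rw [h5, h6, div_self hp2.ne', mul_one]
        _ ≤ c * c * 1 * ∫ z : ℂ, ‖h z‖ ^ 2 := by
            refine mul_le_mul_of_nonneg_right ?_ hI0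
            exact mul_le_mul_of_nonneg_left hp.1.2 (by positivity)
        _ = c * c * ∫ z : ℂ, ‖h z‖ ^ 2 := by rw [mul_one]
  have e6 := integral_integral_swap (μ := mu) (ν := mu)
    (f := fun (w l : ℝ) => ((q (l * w) * q w / l : ℝ) : ℂ) * cor h (si l) 1) hint
  rw [e6, ← integral_neg]
  refine integral_congr_ae ?_
  have h0 : ∀ᵐ v : ℝ ∂mu, v ≠ 1 := by
    refine ae_restrict_of_ae ?_
    rw [ae_iff]
    simp
  filter_upwards [ae_restrict_mem measurableSet_Ioc, h0] with l hl hl1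
  have e7 := hk l hl.1 (lt_of_le_of_ne hl.2 hl1)
  rw [intervalIntegral.integral_of_le zero_le_one] at e7
  rw [integral_mul_const, integral_complex_ofReal, integral_div, e7]
  push_cast
  ring

theorem full (q : ℝ → ℝ) (c : ℝ) (hq : Continuous q) (hc : ∀ v, 0 ≤ v → v ≤ 1 → |q v| ≤ c * Real.sqrt v)
    (hk : ∀ lam : ℝ, 0 < lam → lam < 1 → ∫ w in (0 : ℝ)..1, q (lam * w) * q w = - q lam)
    (h : ℂ → ℂ) (hm : Measurable h)
    (hI : Integrable (fun z : ℂ => ‖h z‖ ^ 2) (volume : Measure ℂ)) :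
    ∫ z : ℂ, KK q h z * (starRingEnd ℂ) (KK q h z) =
      - (∫ v, ((q v / v : ℝ) : ℂ) * cor h (si v) 1 ∂mu) -
        (starRingEnd ℂ) (∫ v, ((q v / v : ℝ) : ℂ) * cor h (si v) 1 ∂mu) := by
  rw [KK_sq q c hq hc h hm hI]
  have hW := WW_int q c hq hc h hm hI
  have hs : MeasurableSet {p : ℝ × ℝ | p.1 < p.2} := measurableSet_lt measurable_fst measurable_snd
  have ht : MeasurableSet {p : ℝ × ℝ | p.1 ≤ p.2} := measurableSet_le measurable_fst measurable_snd
  have h1 := half q c hq hc hk h hm hI {p : ℝ × ℝ | p.1 < p.2} hs (fun v w hvw => hvw)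
    (fun v w hvw => by simpa using hvw.le)
  have h2 := half q c hq hc hk h hm hI {p : ℝ × ℝ | p.1 ≤ p.2} ht (fun v w hvw => by simpa using hvw.le)
    (fun v w hvw => by simpa using hvw)
  have e0 : ∫ p, (((q p.1 / p.1 : ℝ) : ℂ) * ((q p.2 / p.2 : ℝ) : ℂ)) * cor h (si p.1) (si p.2) ∂(mu.prod mu) =
      ∫ p, {p : ℝ × ℝ | p.1 < p.2}.indicator
        (fun p : ℝ × ℝ => (((q p.1 / p.1 : ℝ) : ℂ) * ((q p.2 / p.2 : ℝ) : ℂ)) * cor h (si p.1) (si p.2)) p
          ∂(mu.prod mu) +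
      ∫ p, {p : ℝ × ℝ | p.1 < p.2}ᶜ.indicator
        (fun p : ℝ × ℝ => (((q p.1 / p.1 : ℝ) : ℂ) * ((q p.2 / p.2 : ℝ) : ℂ)) * cor h (si p.1) (si p.2)) p
          ∂(mu.prod mu) := by
    rw [integral_indicator hs, integral_indicator hs.compl, integral_add_compl hs hW]
  have e1 : ∫ p, {p : ℝ × ℝ | p.1 < p.2}ᶜ.indicator
        (fun p : ℝ × ℝ => (((q p.1 / p.1 : ℝ) : ℂ) * ((q p.2 / p.2 : ℝ) : ℂ)) * cor h (si p.1) (si p.2)) p
          ∂(mu.prod mu) = (starRingEnd ℂ) (∫ p, {p : ℝ × ℝ | p.1 ≤ p.2}.indicator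
        (fun p : ℝ × ℝ => (((q p.1 / p.1 : ℝ) : ℂ) * ((q p.2 / p.2 : ℝ) : ℂ)) * cor h (si p.1) (si p.2)) p
          ∂(mu.prod mu)) := by
    rw [← integral_conj, ← integral_prod_swap]
    refine integral_congr_ae (Eventually.of_forall fun p => ?_)
    obtain ⟨v, w⟩ := p
    simp only [Prod.swap_prod_mk]
    by_cases hvw : v ≤ w
    · rw [indicator_of_mem (by simpa using hvw), indicator_of_mem (by simpa using hvw)]
      simp only [map_mul, Complex.conj_ofReal, cor_conj]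
      ring
    · rw [indicator_of_notMem (by simpa using hvw), indicator_of_notMem (by simpa using hvw)]
      simp
  rw [e0, e1, h1, h2, map_neg]
  ring

theorem KK_h_int (q : ℝ → ℝ) (c : ℝ) (hq : Continuous q) (hc : ∀ v, 0 ≤ v → v ≤ 1 → |q v| ≤ c * Real.sqrt v)
    (h : ℂ → ℂ) (hm : Measurable h) (hI : Integrable (fun z : ℂ => ‖h z‖ ^ 2) (volume : Measure ℂ)) :
    Integrable (fun x : ℝ × ℂ => (((q x.1 / x.1 : ℝ) : ℂ) * h ((si x.1 : ℂ) * x.2)) * (starRingEnd ℂ) (h x.2))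
      (mu.prod (volume : Measure ℂ)) := by
  have hc0 := c_nonneg hc
  have hq' := hq.measurable
  have hM : Measurable (fun x : ℝ × ℂ => (((q x.1 / x.1 : ℝ) : ℂ) * h ((si x.1 : ℂ) * x.2)) *
      (starRingEnd ℂ) (h x.2)) := by
    refine Measurable.mul (by fun_prop) ?_
    exact Complex.continuous_conj.measurable.comp (by fun_prop)
  rw [integrable_prod_iff hM.aestronglyMeasurable]
  have hn : ∀ (v : ℝ) (z : ℂ), ‖(((q v / v : ℝ) : ℂ) * h ((si v : ℂ) * z)) * (starRingEnd ℂ) (h z)‖ =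
      |q v / v| * (‖h ((si v : ℂ) * z)‖ * ‖h (((1 : ℝ) : ℂ) * z)‖) := by
    intro v z
    rw [norm_mul, RCLike.norm_conj, norm_mul, Complex.norm_real, Real.norm_eq_abs, Complex.ofReal_one, one_mul]
    ring
  constructor
  · filter_upwards [ae_restrict_mem measurableSet_Ioc] with v hv
    have h1 := (pairI h hm hI (si v) 1 (si_pos hv.1) one_pos).1
    refine (h1.const_mul (|q v / v|)).mono' ?_ (Eventually.of_forall fun z => ?_)
    · exact (hM.comp (by fun_prop : Measurable fun z : ℂ => (v, z))).aestronglyMeasurable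
    · rw [hn]
  · refine (integrable_const (c * ∫ z : ℂ, ‖h z‖ ^ 2)).mono' ?_ ?_
    · exact (hM.norm.stronglyMeasurable.integral_prod_right').aestronglyMeasurable
    · filter_upwards [ae_restrict_mem measurableSet_Ioc] with v hv
      have h1 := (pairI h hm hI (si v) 1 (si_pos hv.1) one_pos).2
      simp only [hn]
      rw [integral_const_mul, Real.norm_of_nonneg (by positivity)]
      have hI0 : 0 ≤ ∫ z : ℂ, ‖h z‖ ^ 2 := integral_nonneg fun z => by positivity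
      calc |q v / v| * ∫ z : ℂ, ‖h ((si v : ℂ) * z)‖ * ‖h (((1 : ℝ) : ℂ) * z)‖
          ≤ |q v / v| * ((si v)⁻¹ * 1⁻¹ * ∫ z : ℂ, ‖h z‖ ^ 2) :=
            mul_le_mul_of_nonneg_left h1 (abs_nonneg _)
        _ = (|q v / v| * (si v)⁻¹) * ∫ z : ℂ, ‖h z‖ ^ 2 := by rw [inv_one]; ring
        _ ≤ c * ∫ z : ℂ, ‖h z‖ ^ 2 := mul_le_mul_of_nonneg_right (kb hc hv.1 hv.2) hI0

theorem KK_h (q : ℝ → ℝ) (c : ℝ) (hq : Continuous q) (hc : ∀ v, 0 ≤ v → v ≤ 1 → |q v| ≤ c * Real.sqrt v)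
    (h : ℂ → ℂ) (hm : Measurable h) (hI : Integrable (fun z : ℂ => ‖h z‖ ^ 2) (volume : Measure ℂ)) :
    Integrable (fun z : ℂ => KK q h z * (starRingEnd ℂ) (h z)) (volume : Measure ℂ) ∧
    ∫ z : ℂ, KK q h z * (starRingEnd ℂ) (h z) = ∫ v, ((q v / v : ℝ) : ℂ) * cor h (si v) 1 ∂mu := by
  have h0 := KK_h_int q c hq hc h hm hI
  have e1 : ∀ z : ℂ, ∫ v, (((q v / v : ℝ) : ℂ) * h ((si v : ℂ) * z)) * (starRingEnd ℂ) (h z) ∂mu =
      KK q h z * (starRingEnd ℂ) (h z) := by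
    intro z
    rw [integral_mul_const]
    rfl
  constructor
  · have h1 := h0.integral_prod_right
    simpa only [e1] using h1
  · have h1 := integral_integral_swap (μ := mu) (ν := (volume : Measure ℂ))
      (f := fun (v : ℝ) (z : ℂ) => (((q v / v : ℝ) : ℂ) * h ((si v : ℂ) * z)) * (starRingEnd ℂ) (h z)) h0
    simp only [e1] at h1
    rw [← h1]
    refine integral_congr_ae (Eventually.of_forall fun v => ?_)
    simp only [cor]
    rw [← integral_const_mul]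
    refine integral_congr_ae (Eventually.of_forall fun z => ?_)
    simp only [Complex.ofReal_one, one_mul]
    ring

/-- **Job O1.** -/
theorem o1 : Pool.Agent.Q78.BB.S_O1 := by
  intro q c hq hc hk h hh
  by_cases hfin : ∫⁻ z : ℂ, ‖h z‖ₑ ^ 2 = ⊤
  · rw [hfin]
    exact le_top
  have hm : Measurable h := hh.1
  have hI : Integrable (fun z : ℂ => ‖h z‖ ^ 2) (volume : Measure ℂ) := by
    refine ⟨(hm.norm.pow_const 2).aestronglyMeasurable, ?_⟩
    rw [hasFiniteIntegral_iff_enorm]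
    refine lt_of_le_of_lt (le_of_eq ?_) (lt_top_iff_ne_top.2 hfin)
    refine lintegral_congr fun z => ?_
    rw [enorm_pow, enorm_norm]
  have e1 : ∀ z : ℂ, Pool.Agent.Q78.BB.AO q h z = h z + KK q h z := by
    intro z
    unfold Pool.Agent.Q78.BB.AO KK
    rw [intervalIntegral.integral_of_le zero_le_one]
  obtain ⟨h1, h2⟩ := KK_h q c hq hc h hm hI
  have h3 := KK_sqI q c hq hc h hm hI
  have h4 := full q c hq hc hk h hm hI
  rw [← h2] at h4
  have e2 : ∀ z : ℂ, ‖Pool.Agent.Q78.BB.AO q h z‖ ^ 2 =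
      ‖h z‖ ^ 2 + 2 * (KK q h z * (starRingEnd ℂ) (h z)).re + (KK q h z * (starRingEnd ℂ) (KK q h z)).re := by
    intro z
    rw [e1, ← Complex.normSq_eq_norm_sq, ← Complex.normSq_eq_norm_sq, Complex.normSq_apply, Complex.normSq_apply]
    simp only [Complex.add_re, Complex.add_im, Complex.mul_re, Complex.conj_re, Complex.conj_im]
    ring
  have h5 : Integrable (fun z : ℂ => (KK q h z * (starRingEnd ℂ) (h z)).re) (volume : Measure ℂ) := h1.re
  have h6 : Integrable (fun z : ℂ => (KK q h z * (starRingEnd ℂ) (KK q h z)).re) (volume : Measure ℂ) := h3.re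
  have e3 : ∫ z : ℂ, (KK q h z * (starRingEnd ℂ) (h z)).re =
      (∫ z : ℂ, KK q h z * (starRingEnd ℂ) (h z)).re := integral_re h1
  have e4 : ∫ z : ℂ, (KK q h z * (starRingEnd ℂ) (KK q h z)).re =
      (∫ z : ℂ, KK q h z * (starRingEnd ℂ) (KK q h z)).re := integral_re h3
  have h7 : Integrable (fun z : ℂ => ‖Pool.Agent.Q78.BB.AO q h z‖ ^ 2) (volume : Measure ℂ) := by
    simp only [e2]
    exact (hI.add (h5.const_mul 2)).add h6
  have e5 : ∫ z : ℂ, ‖Pool.Agent.Q78.BB.AO q h z‖ ^ 2 = ∫ z : ℂ, ‖h z‖ ^ 2 := by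
    have hA : Integrable (fun z : ℂ => ‖h z‖ ^ 2 + 2 * (KK q h z * (starRingEnd ℂ) (h z)).re)
        (volume : Measure ℂ) := hI.add (h5.const_mul 2)
    simp only [e2]
    rw [integral_add hA h6, integral_add hI (h5.const_mul 2), integral_const_mul,
      e3, e4, h4]
    simp only [Complex.sub_re, Complex.neg_re, Complex.conj_re]
    ring
  have e6 : ∀ f : ℂ → ℂ, Integrable (fun z : ℂ => ‖f z‖ ^ 2) (volume : Measure ℂ) →
      ∫⁻ z : ℂ, ‖f z‖ₑ ^ 2 = ENNReal.ofReal (∫ z : ℂ, ‖f z‖ ^ 2) := by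
    intro f hf
    rw [ofReal_integral_eq_lintegral_ofReal hf (Eventually.of_forall fun z => by positivity)]
    refine lintegral_congr fun z => ?_
    rw [ENNReal.ofReal_pow (norm_nonneg _), ofReal_norm]
  rw [e6 _ h7, e6 _ hI, e5]

end Pool.Agent.Q53.BB.O
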