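import Pool.Agent.Q78.BB.Stm

/-!
# Project BB (helper78), job O2: the remaining properties of the adjoint operator
-/

set_option autoImplicit false

open MeasureTheory Set Filter Topology
open scoped BigOperators ENNReal

namespace Pool.Agent.Q53.BB.O2

open Pool.Agent.Q276.BA (BM Op)
open Pool.Agent.Q78.BB (AO)

/-- the integrand -/
noncomputable def G (q : ℝ → ℝ) (h : ℂ → ℂ) (z : ℂ) (v : ℝ) : ℂ :=
  ((q v / v : ℝ) : ℂ) * h ((((Real.sqrt v)⁻¹ : ℝ) : ℂ) * z)

theorem joint_meas {q : ℝ → ℝ} (hq : Continuous q) {h : ℂ → ℂ} (hh : Measurable h) :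
    Measurable (fun p : ℂ × ℝ => G q h p.1 p.2) := by
  have hq' := hq.measurable
  unfold G
  refine Measurable.mul (by fun_prop) (hh.comp (by fun_prop))

theorem G_meas {q : ℝ → ℝ} (hq : Continuous q) {h : ℂ → ℂ} (hh : Measurable h) (z : ℂ) :
    Measurable (G q h z) :=
  (joint_meas hq hh).comp (measurable_const.prodMk measurable_id)

theorem kerI {q : ℝ → ℝ} {c : ℝ} (hq : Continuous q) (hc : ∀ v, 0 ≤ v → v ≤ 1 → |q v| ≤ c * Real.sqrt v) :
    IntervalIntegrable (fun v : ℝ => |q v| / v) volume 0 1 := by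
  have h1 : IntervalIntegrable (fun v : ℝ => c * v ^ (-(1 / 2) : ℝ)) volume 0 1 :=
    (intervalIntegral.intervalIntegrable_rpow' (by norm_num)).const_mul c
  have hq' := hq.measurable
  rw [intervalIntegrable_iff_integrableOn_Ioc_of_le zero_le_one] at h1 ⊢
  refine h1.mono' (Measurable.aestronglyMeasurable (by fun_prop)) ?_
  refine (ae_restrict_mem measurableSet_Ioc).mono fun v hv => ?_
  have h2 := hc v hv.1.le hv.2
  have h3 : 0 < Real.sqrt v := Real.sqrt_pos.2 hv.1
  have h4 : Real.sqrt v * Real.sqrt v = v := Real.mul_self_sqrt hv.1.le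
  rw [Real.rpow_neg hv.1.le, ← Real.sqrt_eq_rpow, Real.norm_eq_abs, abs_div, abs_abs, abs_of_pos hv.1,
    div_le_iff₀ hv.1]
  calc |q v| ≤ c * Real.sqrt v := h2
    _ = c * (Real.sqrt v)⁻¹ * (Real.sqrt v * Real.sqrt v) := by field_simp
    _ = c * (Real.sqrt v)⁻¹ * v := by rw [h4]

theorem G_norm {q : ℝ → ℝ} {h : ℂ → ℂ} {B : ℝ} (hB : ∀ z, ‖h z‖ ≤ B) (z : ℂ) {v : ℝ} (hv : 0 < v) :
    ‖G q h z v‖ ≤ |q v| / v * B := by
  unfold G
  rw [norm_mul, Complex.norm_real, Real.norm_eq_abs, abs_div, abs_of_pos hv]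
  exact mul_le_mul_of_nonneg_left (hB _) (by positivity)

theorem G_int {q : ℝ → ℝ} {c : ℝ} (hq : Continuous q) (hc : ∀ v, 0 ≤ v → v ≤ 1 → |q v| ≤ c * Real.sqrt v)
    {h : ℂ → ℂ} (hh : Measurable h) {B : ℝ} (hB : ∀ z, ‖h z‖ ≤ B) (z : ℂ) :
    IntervalIntegrable (G q h z) volume 0 1 := by
  have h1 := (kerI hq hc).mul_const B
  rw [intervalIntegrable_iff_integrableOn_Ioc_of_le zero_le_one] at h1 ⊢
  refine h1.mono' (G_meas hq hh z).aestronglyMeasurable ?_
  exact (ae_restrict_mem measurableSet_Ioc).mono fun v hv => G_norm hB z hv.1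

theorem AO_eq (q : ℝ → ℝ) (h : ℂ → ℂ) (z : ℂ) : AO q h z = h z + ∫ v in (0 : ℝ)..1, G q h z v := rfl

/-- **Job O2.** -/
theorem o2 : Pool.Agent.Q78.BB.S_O2 := by
  intro q c M hq hc hM hl2
  refine ⟨?_, ?_, ?_, hl2, ?_, ?_⟩
  · rintro f g ⟨hf, Cf, hCf⟩ ⟨hg, Cg, hCg⟩
    funext z
    rw [AO_eq, AO_eq, AO_eq]
    have e : ∫ v in (0 : ℝ)..1, G q (fun z => f z + g z) z v =
        (∫ v in (0 : ℝ)..1, G q f z v) + ∫ v in (0 : ℝ)..1, G q g z v := by
      rw [← intervalIntegral.integral_add (G_int hq hc hf hCf z) (G_int hq hc hg hCg z)]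
      refine intervalIntegral.integral_congr fun v _ => ?_
      simp only [G, mul_add]
    rw [e]
    ring
  · rintro a f -
    funext z
    rw [AO_eq, AO_eq]
    have e : ∫ v in (0 : ℝ)..1, G q (fun z => a * f z) z v = a * ∫ v in (0 : ℝ)..1, G q f z v := by
      rw [← intervalIntegral.integral_const_mul]
      refine intervalIntegral.integral_congr fun v _ => ?_
      simp only [G]
      ring
    rw [e]
    ring
  · rintro f ⟨hf, -⟩
    have e : AO q f = fun z => f z + ∫ v in (0 : ℝ)..1, G q f z v := rfl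
    rw [e]
    refine hf.add ?_
    simp only [intervalIntegral.integral_of_le zero_le_one]
    exact (StronglyMeasurable.integral_prod_right
      (f := fun (z : ℂ) (v : ℝ) => G q f z v) (joint_meas hq hf).stronglyMeasurable).measurable
  · intro f hf B hB z
    have hB0 : 0 ≤ B := (norm_nonneg _).trans (hB 0)
    rw [AO_eq]
    have h1 : ‖∫ v in (0 : ℝ)..1, G q f z v‖ ≤ ∫ v in (0 : ℝ)..1, |q v| / v * B := by
      refine intervalIntegral.norm_integral_le_of_norm_le zero_le_one ?_ ((kerI hq hc).mul_const B)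
      exact Eventually.of_forall fun v hv => G_norm hB z hv.1
    rw [intervalIntegral.integral_mul_const] at h1
    calc _ ≤ ‖f z‖ + _ := norm_add_le _ _
      _ ≤ B + (∫ v in (0 : ℝ)..1, |q v| / v) * B := add_le_add (hB z) h1
      _ = (1 + ∫ v in (0 : ℝ)..1, |q v| / v) * B := by ring
      _ ≤ M * B := mul_le_mul_of_nonneg_right hM hB0
  · intro F f C hF hf hC ht z
    simp only [AO_eq]
    refine (ht z).add ?_
    refine intervalIntegral.tendsto_integral_filter_of_dominated_convergence (fun v => |q v| / v * C) ?_ ?_ ?_ ?_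
    · exact Eventually.of_forall fun i => (G_meas hq (hF i) z).aestronglyMeasurable
    · refine Eventually.of_forall fun i => Eventually.of_forall fun v hv => ?_
      rw [uIoc_of_le zero_le_one] at hv
      exact G_norm (hC i) z hv.1
    · exact (kerI hq hc).mul_const C
    · exact Eventually.of_forall fun v _ => (ht _).const_mul _

end Pool.Agent.Q53.BB.O2
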